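import Mathlib

/-!
`F`-degrees of vertices, for stars and cliques.
-/

namespace Pool.Agent.Q105.Irr

open Finset

/-- The `F`-degree of `x` in `G`: the number of (not necessarily induced) subgraphs of `G` that are
isomorphic to `F` and contain `x`. -/
noncomputable def fdeg {W V : Type*} (F : SimpleGraph W) (G : SimpleGraph V) (x : V) : ℕ :=
  Nat.card {H : G.Subgraph // Nonempty (H.coe ≃g F) ∧ x ∈ H.verts}

/-- `G` is `F`-irregular: its vertices have pairwise distinct `F`-degrees. -/
def IsIrregular {W V : Type*} (F : SimpleGraph W) (G : SimpleGraph V) : Prop :=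
  Function.Injective (fdeg F G)

/-- The number of `n`-subsets of `s` which contain a given element of `s`. -/
theorem card_psc_mem {V : Type*} [DecidableEq V] (s : Finset V) (x : V) (n : ℕ) (hn : 1 ≤ n)
    (hx : x ∈ s) :
    ((powersetCard n s).filter (fun L => x ∈ L)).card = (s.card - 1).choose (n - 1) := by
  rw [← Finset.card_erase_of_mem hx, ← Finset.card_powersetCard]
  symm
  apply Finset.card_bij (fun L _ => insert x L)
  · intro L hL
    rw [mem_powersetCard] at hL
    have hxL : x ∉ L := fun h => (mem_erase.1 (hL.1 h)).1 rfl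
    rw [mem_filter, mem_powersetCard]
    refine ⟨⟨?_, ?_⟩, mem_insert_self _ _⟩
    · intro y hy
      rcases mem_insert.1 hy with rfl | hy
      · exact hx
      · exact mem_of_mem_erase (hL.1 hy)
    · rw [Finset.card_insert_of_notMem hxL, hL.2]; omega
  · intro L hL L' hL' h
    rw [mem_powersetCard] at hL hL'
    have hxL : x ∉ L := fun h => (mem_erase.1 (hL.1 h)).1 rfl
    have hxL' : x ∉ L' := fun h => (mem_erase.1 (hL'.1 h)).1 rfl
    rw [← Finset.erase_insert hxL, ← Finset.erase_insert hxL', h]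
  · intro L hL
    rw [mem_filter, mem_powersetCard] at hL
    refine ⟨L.erase x, ?_, Finset.insert_erase hL.2⟩
    rw [mem_powersetCard]
    exact ⟨Finset.erase_subset_erase _ hL.1.1, by rw [Finset.card_erase_of_mem hL.2, hL.1.2]⟩

/-! ### Cliques -/

/-- The complete subgraph on a clique. -/
def cliqueSub {V : Type*} (G : SimpleGraph V) (K : Finset V) (hK : G.IsClique (K : Set V)) :
    G.Subgraph where
  verts := (K : Set V)
  Adj a b := a ∈ K ∧ b ∈ K ∧ a ≠ b
  adj_sub := fun h => hK h.1 h.2.1 h.2.2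
  edge_vert := fun h => h.1
  symm := ⟨fun _ _ h => ⟨h.2.1, h.1, h.2.2.symm⟩⟩

theorem cliqueSub_iso {V : Type*} (G : SimpleGraph V) (K : Finset V)
    (hK : G.IsClique (K : Set V)) {n : ℕ} (hn : K.card = n) :
    Nonempty ((cliqueSub G K hK).coe ≃g (⊤ : SimpleGraph (Fin n))) := by
  let e : (cliqueSub G K hK).verts ≃ Fin n := by exact K.equivFinOfCardEq hn
  refine ⟨⟨e, ?_⟩⟩
  intro a b
  rw [SimpleGraph.top_adj, SimpleGraph.Subgraph.coe_adj]
  change ¬ (e a = e b) ↔ (a.1 ∈ K ∧ b.1 ∈ K ∧ a.1 ≠ b.1)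
  rw [EmbeddingLike.apply_eq_iff_eq]
  constructor
  · intro h
    exact ⟨a.2, b.2, fun e => h (Subtype.ext e)⟩
  · rintro ⟨-, -, h⟩ e
    exact h (congrArg Subtype.val e)

theorem fdeg_top {V : Type*} [Fintype V] [DecidableEq V] (G : SimpleGraph V)
    (n : ℕ) (x : V) (S : Finset (Finset V))
    (hS : ∀ K, K ∈ S ↔ (G.IsClique (K : Set V) ∧ K.card = n ∧ x ∈ K)) :
    fdeg (⊤ : SimpleGraph (Fin n)) G x = S.card := by
  classical
  rw [fdeg, ← Fintype.card_coe, ← Nat.card_eq_fintype_card]
  symm
  apply Nat.card_congr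
  refine Equiv.ofBijective (fun K : S => ⟨cliqueSub G K.1 ((hS K.1).1 K.2).1,
    cliqueSub_iso G K.1 _ ((hS K.1).1 K.2).2.1, ((hS K.1).1 K.2).2.2⟩) ⟨?_, ?_⟩
  · intro K K' h
    have h1 : (cliqueSub G K.1 ((hS K.1).1 K.2).1).verts
        = (cliqueSub G K'.1 ((hS K'.1).1 K'.2).1).verts :=
      congrArg (fun H => H.1.verts) h
    apply Subtype.ext
    exact Finset.coe_injective h1
  · rintro ⟨H, ⟨φ⟩, hx⟩
    have hfin : (H.verts).Finite := Set.toFinite _
    have hadj : ∀ a ∈ H.verts, ∀ b ∈ H.verts, a ≠ b → H.Adj a b := by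
      intro a ha b hb hab
      have h1 : H.coe.Adj ⟨a, ha⟩ ⟨b, hb⟩ := by
        rw [← φ.map_adj_iff, SimpleGraph.top_adj]
        intro he
        exact hab (congrArg Subtype.val (φ.injective he))
      exact h1
    have hcl : G.IsClique ((hfin.toFinset : Finset V) : Set V) := by
      intro a ha b hb hab
      rw [Set.Finite.coe_toFinset] at ha hb
      exact H.adj_sub (hadj a ha b hb hab)
    have hcard : (hfin.toFinset).card = n := by
      have h1 : Nat.card H.verts = n := by
        rw [Nat.card_congr φ.toEquiv, Nat.card_eq_fintype_card, Fintype.card_fin]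
      rw [← h1, ← Set.ncard_eq_toFinset_card _ hfin]
      rfl
    refine ⟨⟨hfin.toFinset, (hS _).2 ⟨hcl, hcard, (Set.Finite.mem_toFinset hfin).2 hx⟩⟩, ?_⟩
    apply Subtype.ext
    apply SimpleGraph.Subgraph.ext
    · exact Set.Finite.coe_toFinset hfin
    · funext a b
      apply propext
      change (a ∈ hfin.toFinset ∧ b ∈ hfin.toFinset ∧ a ≠ b) ↔ H.Adj a b
      rw [Set.Finite.mem_toFinset, Set.Finite.mem_toFinset]
      constructor
      · rintro ⟨ha, hb, hab⟩
        exact hadj a ha b hb hab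
      · intro h
        exact ⟨H.edge_vert h, H.edge_vert h.symm, h.ne⟩

/-! ### Stars -/

/-- The star `K_{1,n}`. -/
abbrev star (n : ℕ) : SimpleGraph (Fin 1 ⊕ Fin n) := completeBipartiteGraph (Fin 1) (Fin n)

/-- The star with centre `v` and leaf set `L`. -/
def starSub {V : Type*} (G : SimpleGraph V) (v : V) (L : Finset V) (h : ∀ a ∈ L, G.Adj v a) :
    G.Subgraph where
  verts := {a | a = v ∨ a ∈ L}
  Adj a b := (a = v ∧ b ∈ L) ∨ (b = v ∧ a ∈ L)
  adj_sub := by
    rintro a b (⟨rfl, hb⟩ | ⟨rfl, ha⟩)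
    · exact h b hb
    · exact (h a ha).symm
  edge_vert := by
    rintro a b (⟨rfl, hb⟩ | ⟨rfl, ha⟩)
    · exact Or.inl rfl
    · exact Or.inr ha
  symm := ⟨fun _ _ h => h.symm⟩

theorem starSub_iso {V : Type*} (G : SimpleGraph V) (v : V) (L : Finset V)
    (h : ∀ a ∈ L, G.Adj v a) {n : ℕ} (hn : L.card = n) :
    Nonempty ((starSub G v L h).coe ≃g star n) := by
  classical
  have hv : v ∉ L := fun hv => (h v hv).ne rfl
  let e : {a // a ∈ L} ≃ Fin n := L.equivFinOfCardEq hn
  let f : Fin 1 ⊕ Fin n → (starSub G v L h).verts := fun t => match t with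
    | .inl _ => ⟨v, Or.inl rfl⟩
    | .inr i => ⟨(e.symm i).1, Or.inr (e.symm i).2⟩
  have hf : Function.Bijective f := by
    constructor
    · rintro (a | a) (b | b) hab
      · rw [Subsingleton.elim a b]
      · have he : v = (e.symm b).1 := congrArg Subtype.val hab
        exact absurd (e.symm b).2 (by rw [← he]; exact hv)
      · have he : (e.symm a).1 = v := congrArg Subtype.val hab
        exact absurd (e.symm a).2 (by rw [he]; exact hv)
      · have he : (f (.inr a)).1 = (f (.inr b)).1 := congrArg Subtype.val hab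
        have he' : (e.symm a).1 = (e.symm b).1 := he
        rw [e.symm.injective (Subtype.ext he')]
    · rintro ⟨a, ha⟩
      rcases ha with rfl | ha
      · exact ⟨.inl 0, rfl⟩
      · refine ⟨.inr (e ⟨a, ha⟩), ?_⟩
        apply Subtype.ext
        change (e.symm (e ⟨a, ha⟩)).1 = a
        rw [Equiv.symm_apply_apply]
  refine ⟨(RelIso.symm ⟨Equiv.ofBijective f hf, ?_⟩)⟩
  rintro (a | a) (b | b)
  · simp only [Equiv.ofBijective_apply, SimpleGraph.Subgraph.coe_adj]
    constructor
    · rintro (⟨-, hb⟩ | ⟨-, hb⟩) <;> exact absurd hb hv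
    · intro hb; simp at hb
  · simp only [Equiv.ofBijective_apply, SimpleGraph.Subgraph.coe_adj]
    constructor
    · intro _; simp
    · intro _; exact Or.inl ⟨rfl, (e.symm b).2⟩
  · simp only [Equiv.ofBijective_apply, SimpleGraph.Subgraph.coe_adj]
    constructor
    · intro _; simp
    · intro _; exact Or.inr ⟨rfl, (e.symm a).2⟩
  · simp only [Equiv.ofBijective_apply, SimpleGraph.Subgraph.coe_adj]
    constructor
    · rintro (⟨ha, -⟩ | ⟨ha, -⟩)
      · have ha' : (e.symm a).1 = v := ha
        exact absurd (e.symm a).2 (by rw [ha']; exact hv)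
      · have ha' : (e.symm b).1 = v := ha
        exact absurd (e.symm b).2 (by rw [ha']; exact hv)
    · intro hb; simp at hb

theorem fdeg_star_aux {V : Type*} [Fintype V] [DecidableEq V] (G : SimpleGraph V)
    (n : ℕ) (hn2 : 2 ≤ n) (x : V) (S : Finset (V × Finset V))
    (hS : ∀ p, p ∈ S ↔ ((∀ a ∈ p.2, G.Adj p.1 a) ∧ p.2.card = n ∧ (x = p.1 ∨ x ∈ p.2))) :
    fdeg (star n) G x = S.card := by
  classical
  rw [fdeg, ← Fintype.card_coe, ← Nat.card_eq_fintype_card]
  symm
  apply Nat.card_congr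
  refine Equiv.ofBijective (fun p : S => ⟨starSub G p.1.1 p.1.2 ((hS p.1).1 p.2).1,
    starSub_iso G _ _ _ ((hS p.1).1 p.2).2.1, ((hS p.1).1 p.2).2.2⟩) ⟨?_, ?_⟩
  · rintro ⟨⟨v, L⟩, hp⟩ ⟨⟨v', L'⟩, hp'⟩ h
    have h0 : starSub G v L ((hS _).1 hp).1 = starSub G v' L' ((hS _).1 hp').1 :=
      congrArg Subtype.val h
    have hadj : ∀ a b, ((a = v ∧ b ∈ L) ∨ (b = v ∧ a ∈ L)) ↔
        ((a = v' ∧ b ∈ L') ∨ (b = v' ∧ a ∈ L')) := by
      intro a b
      have := congrArg (fun H => H.Adj a b) h0
      exact iff_of_eq this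
    have hv : v ∉ L := fun hv => (((hS _).1 hp).1 v hv).ne rfl
    have hv' : v' ∉ L' := fun hv => (((hS _).1 hp').1 v' hv).ne rfl
    have hL : L.card = n := ((hS _).1 hp).2.1
    have hvv : v = v' := by
      by_contra hne
      obtain ⟨a, ha, b, hb, hab⟩ := Finset.one_lt_card.1 (show 1 < L.card by omega)
      have h1 := (hadj v a).1 (Or.inl ⟨rfl, ha⟩)
      have h2 := (hadj v b).1 (Or.inl ⟨rfl, hb⟩)
      rcases h1 with ⟨h1, -⟩ | ⟨h1, -⟩
      · exact hne h1
      · rcases h2 with ⟨h2, -⟩ | ⟨h2, -⟩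
        · exact hne h2
        · exact hab (h1.trans h2.symm)
    subst hvv
    have hLL : L = L' := by
      ext a
      have h1 := hadj v a
      constructor
      · intro ha
        rcases h1.1 (Or.inl ⟨rfl, ha⟩) with ⟨-, h2⟩ | ⟨-, h2⟩
        · exact h2
        · exact absurd h2 hv'
      · intro ha
        rcases h1.2 (Or.inl ⟨rfl, ha⟩) with ⟨-, h2⟩ | ⟨-, h2⟩
        · exact h2
        · exact absurd h2 hv
    subst hLL
    rfl
  · rintro ⟨H, ⟨φ⟩, hx⟩
    let v : V := (φ.symm (.inl 0)).1
    let L : Finset V := univ.image (fun i : Fin n => (φ.symm (.inr i)).1)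
    have hmemL : ∀ a, a ∈ L ↔ ∃ i, (φ.symm (.inr i)).1 = a := by
      intro a; simp [L]
    have hverts : ∀ a, a ∈ H.verts ↔ (a = v ∨ a ∈ L) := by
      intro a
      constructor
      · intro ha
        rcases hφ : φ ⟨a, ha⟩ with i | i
        · left
          have : (⟨a, ha⟩ : H.verts) = φ.symm (.inl i) := by rw [← hφ, RelIso.symm_apply_apply]
          rw [Subsingleton.elim i 0] at this
          exact congrArg Subtype.val this
        · right
          have : (⟨a, ha⟩ : H.verts) = φ.symm (.inr i) := by rw [← hφ, RelIso.symm_apply_apply]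
          exact (hmemL a).2 ⟨i, (congrArg Subtype.val this).symm⟩
      · rintro (rfl | ha)
        · exact (φ.symm (.inl 0)).2
        · obtain ⟨i, rfl⟩ := (hmemL a).1 ha
          exact (φ.symm (.inr i)).2
    have hvL : ∀ a ∈ L, H.Adj v a := by
      intro a ha
      obtain ⟨i, rfl⟩ := (hmemL a).1 ha
      have : H.coe.Adj (φ.symm (.inl 0)) (φ.symm (.inr i)) := by
        rw [φ.symm.map_adj_iff]
        simp
      exact this
    have hLL : ∀ a ∈ L, ∀ b ∈ L, ¬ H.Adj a b := by
      intro a ha b hb hab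
      obtain ⟨i, rfl⟩ := (hmemL a).1 ha
      obtain ⟨j, rfl⟩ := (hmemL b).1 hb
      have : H.coe.Adj (φ.symm (.inr i)) (φ.symm (.inr j)) := hab
      rw [φ.symm.map_adj_iff] at this
      simp at this
    have hcard : L.card = n := by
      rw [Finset.card_image_of_injective, Finset.card_univ, Fintype.card_fin]
      intro i j hij
      have := φ.symm.injective (Subtype.ext hij)
      exact Sum.inr.inj this
    refine ⟨⟨(v, L), (hS _).2 ⟨fun a ha => H.adj_sub (hvL a ha), hcard, ?_⟩⟩, ?_⟩
    · exact (hverts x).1 hx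
    · apply Subtype.ext
      apply SimpleGraph.Subgraph.ext
      · ext a
        exact (hverts a).symm
      · funext a b
        apply propext
        change ((a = v ∧ b ∈ L) ∨ (b = v ∧ a ∈ L)) ↔ H.Adj a b
        constructor
        · rintro (⟨rfl, hb⟩ | ⟨rfl, ha⟩)
          · exact hvL b hb
          · exact (hvL a ha).symm
        · intro hab
          rcases (hverts a).1 (H.edge_vert hab) with ha | ha
          · rcases (hverts b).1 (H.edge_vert hab.symm) with hb | hb
            · rw [ha, hb] at hab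
              exact absurd rfl hab.ne
            · exact Or.inl ⟨ha, hb⟩
          · rcases (hverts b).1 (H.edge_vert hab.symm) with hb | hb
            · exact Or.inr ⟨hb, ha⟩
            · exact absurd hab (hLL a ha b hb)

/-- The star degree in terms of degrees. -/
theorem fdeg_star {V : Type*} [Fintype V] [DecidableEq V] (G : SimpleGraph V)
    (N : V → Finset V) (hN : ∀ a b, b ∈ N a ↔ G.Adj a b) (n : ℕ) (hn2 : 2 ≤ n) (x : V) :
    fdeg (star n) G x
      = (N x).card.choose n + ∑ y ∈ N x, ((N y).card - 1).choose (n - 1) := by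
  classical
  let S : Finset (V × Finset V) := (univ : Finset V).biUnion (fun v =>
    ((powersetCard n (N v)).filter (fun L => x = v ∨ x ∈ L)).image (fun L => (v, L)))
  have hS : ∀ p, p ∈ S ↔ ((∀ a ∈ p.2, G.Adj p.1 a) ∧ p.2.card = n ∧ (x = p.1 ∨ x ∈ p.2)) := by
    rintro ⟨v, L⟩
    simp only [S, mem_biUnion, mem_image, mem_univ, true_and, mem_filter, mem_powersetCard,
      Prod.mk.injEq]
    constructor
    · rintro ⟨v', L', ⟨⟨h1, h2⟩, h3⟩, h4, h5⟩
      subst h4 h5
      exact ⟨fun a ha => (hN _ _).1 (h1 ha), h2, h3⟩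
    · rintro ⟨h1, h2, h3⟩
      exact ⟨v, L, ⟨⟨fun a ha => (hN _ _).2 (h1 a ha), h2⟩, h3⟩, rfl, rfl⟩
  rw [fdeg_star_aux G n hn2 x S hS]
  simp only [S]
  rw [Finset.card_biUnion]
  swap
  · intro v _ v' _ hne
    rw [Function.onFun, Finset.disjoint_left]
    intro p hp hp'
    obtain ⟨L, -, rfl⟩ := mem_image.1 hp
    obtain ⟨L', -, h⟩ := mem_image.1 hp'
    exact hne (congrArg Prod.fst h).symm
  rw [Finset.sum_congr rfl (fun v _ => Finset.card_image_of_injective _
    (fun L L' h => (congrArg Prod.snd h : L = L')))]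
  rw [← Finset.add_sum_erase _ _ (mem_univ x)]
  congr 1
  · rw [← Finset.card_powersetCard]
    congr 1
    apply Finset.filter_true_of_mem
    intro L _
    exact Or.inl rfl
  · have h1 : ∀ v ∈ (univ : Finset V).erase x,
        ((powersetCard n (N v)).filter (fun L => x = v ∨ x ∈ L)).card
          = if v ∈ N x then ((N v).card - 1).choose (n - 1) else 0 := by
      intro v hv
      have hne : x ≠ v := fun h => (mem_erase.1 hv).1 h.symm
      have h2 : (powersetCard n (N v)).filter (fun L => x = v ∨ x ∈ L)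
          = (powersetCard n (N v)).filter (fun L => x ∈ L) := by
        apply Finset.filter_congr
        intro L _
        simp [hne]
      rw [h2]
      split_ifs with h
      · have hxv : x ∈ N v := (hN _ _).2 ((hN _ _).1 h).symm
        exact card_psc_mem _ _ _ (by omega) hxv
      · rw [Finset.card_eq_zero, Finset.filter_eq_empty_iff]
        intro L hL hx
        rw [mem_powersetCard] at hL
        exact h ((hN _ _).2 ((hN _ _).1 (hL.1 hx)).symm)
    rw [Finset.sum_congr rfl h1, ← Finset.sum_filter]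
    apply Finset.sum_congr _ (fun _ _ => rfl)
    ext v
    rw [mem_filter, mem_erase]
    constructor
    · exact fun h => h.2
    · intro h
      exact ⟨⟨fun e => ((hN _ _).1 h).ne e.symm, mem_univ _⟩, h⟩

end Pool.Agent.Q105.Irr
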