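import Mathlib
import Pool.Agent.Q105.Irr.Basic

/-!
Clique degrees of a graph which consists of a clique `Q` and special vertices `S`, where two
special vertices `a`, `b` with nested neighbourhoods are adjacent and there are no other edges
between special vertices.
-/

namespace Pool.Agent.Q105.Irr.Clq

open Finset Pool.Agent.Q105.Irr

section

variable {Q S : Type} [Fintype Q] [DecidableEq Q] [Fintype S] [DecidableEq S]

/-- The graph. -/
def gr (Nf : S → Finset Q) (a b : S) (hab : a ≠ b) : SimpleGraph (Q ⊕ S) where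
  Adj x y := match x, y with
    | .inl p, .inl q => p ≠ q
    | .inl p, .inr s => p ∈ Nf s
    | .inr s, .inl p => p ∈ Nf s
    | .inr s, .inr t => (s = a ∧ t = b) ∨ (s = b ∧ t = a)
  symm := ⟨by
    rintro (p | s) (q | t) h
    · exact fun e => h e.symm
    · exact h
    · exact h
    · exact h.elim (fun h => Or.inr ⟨h.2, h.1⟩) (fun h => Or.inl ⟨h.2, h.1⟩)⟩
  loopless := ⟨by
    rintro (p | s) h
    · exact h rfl
    · rcases h with ⟨h1, h2⟩ | ⟨h1, h2⟩
      · exact hab (h1.symm.trans h2)
      · exact hab (h2.symm.trans h1)⟩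

/-- common neighbourhood in `Q` of a set of special vertices -/
def Nb (Nf : S → Finset Q) (B : Finset S) : Finset Q := univ.filter (fun q => ∀ s ∈ B, q ∈ Nf s)

/-- the allowed sets of special vertices -/
def Bs (a b : S) : Finset (Finset S) :=
  insert ∅ (insert {a, b} (univ.image (fun s => {s})))

theorem mem_Bs {a b : S} {B : Finset S} :
    B ∈ Bs a b ↔ B = ∅ ∨ B = {a, b} ∨ ∃ s, B = {s} := by
  simp only [Bs, mem_insert, mem_image, mem_univ, true_and]
  constructor
  · rintro (h | h | ⟨s, h⟩)
    · exact Or.inl h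
    · exact Or.inr (Or.inl h)
    · exact Or.inr (Or.inr ⟨s, h.symm⟩)
  · rintro (h | h | ⟨s, h⟩)
    · exact Or.inl h
    · exact Or.inr (Or.inl h)
    · exact Or.inr (Or.inr ⟨s, h.symm⟩)

theorem sum_Bs {a b : S} (hab : a ≠ b) (f : Finset S → ℕ) :
    ∑ B ∈ Bs a b, f B = f ∅ + f {a, b} + ∑ s, f {s} := by
  have h1 : ({a, b} : Finset S) ∉ (univ : Finset S).image (fun s => ({s} : Finset S)) := by
    intro h
    obtain ⟨s, -, hs⟩ := mem_image.1 h
    have h2 : ({s} : Finset S).card = ({a, b} : Finset S).card := by rw [hs]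
    rw [Finset.card_singleton, Finset.card_pair hab] at h2
    omega
  have h2 : (∅ : Finset S) ∉ insert {a, b} ((univ : Finset S).image (fun s => ({s} : Finset S))) := by
    intro h
    rcases mem_insert.1 h with h | h
    · exact absurd h.symm (Finset.insert_ne_empty _ _)
    · obtain ⟨s, -, hs⟩ := mem_image.1 h
      exact absurd hs (Finset.singleton_ne_empty _)
  rw [Bs, Finset.sum_insert h2, Finset.sum_insert h1, Finset.sum_image, add_assoc]
  intro s _ t _ h
  exact Finset.singleton_injective h

/-- The cliques of the graph. -/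
theorem isClique_iff {Nf : S → Finset Q} {a b : S} (hab : a ≠ b) (K : Finset (Q ⊕ S)) :
    (gr Nf a b hab).IsClique (K : Set (Q ⊕ S)) ↔
      K.toRight ∈ Bs a b ∧ K.toLeft ⊆ Nb Nf K.toRight := by
  constructor
  · intro h
    constructor
    · rw [mem_Bs]
      by_cases h0 : K.toRight = ∅
      · exact Or.inl h0
      · right
        obtain ⟨s, hs⟩ := Finset.nonempty_iff_ne_empty.2 h0
        by_cases h1 : K.toRight = {s}
        · exact Or.inr ⟨s, h1⟩
        · left
          have key : ∀ x ∈ K.toRight, ∀ y ∈ K.toRight, x ≠ y →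
              (x = a ∧ y = b) ∨ (x = b ∧ y = a) := by
            intro x hx y hy hxy
            exact h (mem_toRight.1 hx) (mem_toRight.1 hy) (fun e => hxy (Sum.inr.inj e))
          obtain ⟨t, ht, hts⟩ : ∃ t ∈ K.toRight, t ≠ s := by
            by_contra hc
            push Not at hc
            exact h1 (Finset.eq_singleton_iff_unique_mem.2 ⟨hs, hc⟩)
          have hmem : a ∈ K.toRight ∧ b ∈ K.toRight := by
            rcases key s hs t ht hts.symm with ⟨rfl, rfl⟩ | ⟨rfl, rfl⟩
            · exact ⟨hs, ht⟩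
            · exact ⟨ht, hs⟩
          ext x
          rw [mem_insert, mem_singleton]
          constructor
          · intro hx
            by_cases hxa : x = a
            · exact Or.inl hxa
            · rcases key x hx a hmem.1 hxa with ⟨h2, -⟩ | ⟨h2, -⟩
              · exact absurd h2 hxa
              · exact Or.inr h2
          · rintro (rfl | rfl)
            · exact hmem.1
            · exact hmem.2
    · intro q hq
      rw [Nb, mem_filter]
      refine ⟨mem_univ _, fun s hs => ?_⟩
      exact h (mem_toLeft.1 hq) (mem_toRight.1 hs) (by simp)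
  · rintro ⟨h1, h2⟩
    rintro (p | s) hp (q | t) hq hne
    · exact fun e => hne (by rw [e])
    · have := h2 (mem_toLeft.2 hp)
      rw [Nb, mem_filter] at this
      exact this.2 t (mem_toRight.2 hq)
    · have := h2 (mem_toLeft.2 hq)
      rw [Nb, mem_filter] at this
      exact this.2 s (mem_toRight.2 hp)
    · have hs := mem_toRight.2 hp
      have ht := mem_toRight.2 hq
      have hst : s ≠ t := fun e => hne (by rw [e])
      rcases mem_Bs.1 h1 with h | h | ⟨u, h⟩
      · rw [h] at hs
        exact absurd hs (Finset.notMem_empty _)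
      · rw [h, mem_insert, mem_singleton] at hs ht
        rcases hs with rfl | rfl <;> rcases ht with rfl | rfl
        · exact absurd rfl hst
        · exact Or.inl ⟨rfl, rfl⟩
        · exact Or.inr ⟨rfl, rfl⟩
        · exact absurd rfl hst
      · rw [h, mem_singleton] at hs ht
        exact absurd (hs.trans ht.symm) hst

theorem fdeg_gr {Nf : S → Finset Q} {a b : S} (hab : a ≠ b) (n : ℕ) (hn : 2 ≤ n) (x : Q ⊕ S) :
    fdeg (⊤ : SimpleGraph (Fin n)) (gr Nf a b hab) x
      = ∑ B ∈ Bs a b, ((powersetCard (n - B.card) (Nb Nf B)).filter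
          (fun A => x ∈ A.disjSum B)).card := by
  classical
  let T : Finset (Finset (Q ⊕ S)) := (Bs a b).biUnion (fun B =>
    ((powersetCard (n - B.card) (Nb Nf B)).filter (fun A => x ∈ A.disjSum B)).image
      (fun A => A.disjSum B))
  have hBcard : ∀ B ∈ Bs a b, B.card ≤ 2 := by
    intro B hB
    rcases mem_Bs.1 hB with rfl | rfl | ⟨s, rfl⟩
    · simp
    · exact Finset.card_le_two
    · simp
  have hT : ∀ K, K ∈ T ↔ ((gr Nf a b hab).IsClique (K : Set (Q ⊕ S)) ∧ K.card = n ∧ x ∈ K) := by
    intro K
    simp only [T, mem_biUnion, mem_image, mem_filter, mem_powersetCard]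
    rw [isClique_iff]
    constructor
    · rintro ⟨B, hB, A, ⟨⟨h1, h2⟩, h3⟩, rfl⟩
      rw [toRight_disjSum, toLeft_disjSum, card_disjSum, h2]
      exact ⟨⟨hB, h1⟩, by have := hBcard B hB; omega, h3⟩
    · rintro ⟨⟨h1, h2⟩, h3, h4⟩
      refine ⟨K.toRight, h1, K.toLeft, ⟨⟨h2, ?_⟩, ?_⟩, toLeft_disjSum_toRight⟩
      · have := card_toLeft_add_card_toRight (u := K)
        omega
      · rw [toLeft_disjSum_toRight]; exact h4
  rw [fdeg_top _ n x T hT]
  simp only [T]
  rw [Finset.card_biUnion]
  · apply Finset.sum_congr rfl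
    intro B _
    apply Finset.card_image_of_injective
    intro A A' h
    exact (disjSum_inj.1 h).1
  · intro B _ B' _ hne
    rw [Function.onFun, Finset.disjoint_left]
    intro K hK hK'
    obtain ⟨A, -, rfl⟩ := mem_image.1 hK
    obtain ⟨A', -, h⟩ := mem_image.1 hK'
    exact hne (disjSum_inj.1 h).2.symm

theorem Nb_empty (Nf : S → Finset Q) : Nb Nf ∅ = univ := by simp [Nb]

theorem Nb_single (Nf : S → Finset Q) (s : S) : Nb Nf {s} = Nf s := by
  ext q; simp [Nb]

theorem Nb_pair (Nf : S → Finset Q) {a b : S} (h : Nf a ⊆ Nf b) : Nb Nf {a, b} = Nf a := by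
  ext q
  simp only [Nb, mem_insert, mem_singleton, mem_filter, mem_univ, true_and, forall_eq_or_imp,
    forall_eq]
  exact ⟨fun h => h.1, fun h' => ⟨h', h h'⟩⟩

theorem fdeg_inl {Nf : S → Finset Q} {a b : S} (hab : a ≠ b) (hsub : Nf a ⊆ Nf b) (n : ℕ)
    (hn : 3 ≤ n) (q : Q) :
    fdeg (⊤ : SimpleGraph (Fin n)) (gr Nf a b hab) (.inl q)
      = (Fintype.card Q - 1).choose (n - 1)
        + (if q ∈ Nf a then ((Nf a).card - 1).choose (n - 3) else 0)
        + ∑ s, if q ∈ Nf s then ((Nf s).card - 1).choose (n - 2) else 0 := by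
  rw [fdeg_gr hab n (by omega), sum_Bs hab]
  have key : ∀ (B : Finset S), B.card ≤ 2 → ((powersetCard (n - B.card) (Nb Nf B)).filter
      (fun A => (.inl q : Q ⊕ S) ∈ A.disjSum B)).card
      = if q ∈ Nb Nf B then ((Nb Nf B).card - 1).choose (n - B.card - 1) else 0 := by
    intro B hB
    simp only [inl_mem_disjSum]
    split_ifs with h
    · exact card_psc_mem _ _ _ (by omega) h
    · rw [Finset.card_eq_zero, Finset.filter_eq_empty_iff]
      intro A hA hq
      exact h ((mem_powersetCard.1 hA).1 hq)
  rw [key ∅ (by simp), key {a, b} Finset.card_le_two, Nb_empty, Nb_pair Nf hsub,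
    Finset.card_pair hab, Finset.card_empty, if_pos (mem_univ _), Finset.card_univ]
  congr 1
  apply Finset.sum_congr rfl
  intro s _
  rw [key {s} (by simp), Nb_single, Finset.card_singleton]
  rfl

theorem fdeg_inr {Nf : S → Finset Q} {a b : S} (hab : a ≠ b) (hsub : Nf a ⊆ Nf b) (n : ℕ)
    (hn : 3 ≤ n) (t : S) :
    fdeg (⊤ : SimpleGraph (Fin n)) (gr Nf a b hab) (.inr t)
      = (if t = a ∨ t = b then (Nf a).card.choose (n - 2) else 0)
        + (Nf t).card.choose (n - 1) := by
  rw [fdeg_gr hab n (by omega), sum_Bs hab]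
  have key : ∀ (B : Finset S), ((powersetCard (n - B.card) (Nb Nf B)).filter
      (fun A => (.inr t : Q ⊕ S) ∈ A.disjSum B)).card
      = if t ∈ B then (Nb Nf B).card.choose (n - B.card) else 0 := by
    intro B
    simp only [inr_mem_disjSum]
    split_ifs with h
    · rw [← Finset.card_powersetCard]
      congr 1
      apply Finset.filter_true_of_mem
      intro _ _
      exact h
    · rw [Finset.card_eq_zero, Finset.filter_eq_empty_iff]
      intro A hA hq
      exact h hq
  rw [key ∅, key {a, b}, Nb_pair Nf hsub, Finset.card_pair hab, if_neg (Finset.notMem_empty _)]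
  simp only [mem_insert, mem_singleton, zero_add]
  congr 1
  rw [Finset.sum_eq_single t]
  · rw [key {t}, if_pos (mem_singleton_self _), Nb_single, Finset.card_singleton]
  · intro s _ hs
    rw [key {s}, if_neg]
    rw [mem_singleton]
    exact fun e => hs e.symm
  · intro h
    exact absurd (mem_univ _) h

end

end Pool.Agent.Q105.Irr.Clq
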