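import Mathlib
import Pool.Agent.Q105.Irr.Basic

/-!
For every `n ≥ 2` and `M ≥ n+1`, `M ≥ 4` the antiregular graph on `2 M` vertices plus one edge is
`K_{1,n}`-irregular.
-/

namespace Pool.Agent.Q105.Irr.Star

open Finset Pool.Agent.Q105.Irr

variable {M : ℕ}

/-- adjacency: lows `inl i`, highs `inr r`; the highs form a clique, `inl i ~ inr r` iff `r ≤ i`,
and the first low is adjacent to the last low -/
def ad : Fin M ⊕ Fin M → Fin M ⊕ Fin M → Bool
  | .inl i, .inl j => decide ((i.1 = 0 ∧ j.1 = M - 1) ∨ (i.1 = M - 1 ∧ j.1 = 0))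
  | .inl i, .inr r => decide (r.1 ≤ i.1)
  | .inr r, .inl i => decide (r.1 ≤ i.1)
  | .inr r, .inr q => decide (r.1 ≠ q.1)

/-- The graph. -/
def gr (hM : 4 ≤ M) : SimpleGraph (Fin M ⊕ Fin M) where
  Adj x y := ad x y = true
  symm := ⟨by
    rintro (i | r) (j | q) h
    · simp only [ad, decide_eq_true_eq] at h ⊢; tauto
    · simp only [ad, decide_eq_true_eq] at h ⊢; tauto
    · simp only [ad, decide_eq_true_eq] at h ⊢; tauto
    · simp only [ad, decide_eq_true_eq] at h ⊢; exact fun e => h e.symm⟩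
  loopless := ⟨by
    rintro (i | r) h
    · simp only [ad, decide_eq_true_eq] at h; omega
    · simp [ad] at h⟩

/-- neighbourhoods -/
def N (x : Fin M ⊕ Fin M) : Finset (Fin M ⊕ Fin M) := univ.filter (fun y => ad x y = true)

theorem mem_N (hM : 4 ≤ M) (a b : Fin M ⊕ Fin M) : b ∈ N a ↔ (gr hM).Adj a b := by
  simp [N, gr]

theorem sum_le {i : ℕ} (hi : i < M) (f : ℕ → ℕ) :
    (∑ r : Fin M, if r.1 ≤ i then f r.1 else 0) = ∑ r ∈ range (i + 1), f r := by
  rw [Fin.sum_univ_eq_sum_range (fun r => if r ≤ i then f r else 0) M, ← Finset.sum_filter]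
  apply Finset.sum_congr _ (fun _ _ => rfl)
  ext r
  simp only [mem_filter, mem_range]
  omega

theorem sum_ge (r : ℕ) (f : ℕ → ℕ) :
    (∑ i : Fin M, if r ≤ i.1 then f i.1 else 0) = ∑ i ∈ Ico r M, f i := by
  rw [Fin.sum_univ_eq_sum_range (fun i => if r ≤ i then f i else 0) M, ← Finset.sum_filter]
  apply Finset.sum_congr _ (fun _ _ => rfl)
  ext i
  simp only [mem_filter, mem_range, mem_Ico]
  omega

theorem sum_ends (hM : 4 ≤ M) {i : ℕ} (f : ℕ → ℕ) :
    (∑ j : Fin M, if (i = 0 ∧ j.1 = M - 1) ∨ (i = M - 1 ∧ j.1 = 0) then f j.1 else 0)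
      = if i = 0 then f (M - 1) else if i = M - 1 then f 0 else 0 := by
  rw [Fin.sum_univ_eq_sum_range
    (fun j => if (i = 0 ∧ j = M - 1) ∨ (i = M - 1 ∧ j = 0) then f j else 0) M]
  split_ifs with h1 h2
  · rw [Finset.sum_eq_single (M - 1)]
    · rw [if_pos (Or.inl ⟨h1, rfl⟩)]
    · intro b _ hb
      rw [if_neg]
      omega
    · intro h
      exact absurd (mem_range.2 (by omega)) h
  · rw [Finset.sum_eq_single 0]
    · rw [if_pos (Or.inr ⟨h2, rfl⟩)]
    · intro b _ hb
      rw [if_neg]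
      omega
    · intro h
      exact absurd (mem_range.2 (by omega)) h
  · apply Finset.sum_eq_zero
    intro b _
    rw [if_neg]
    omega

theorem sum_ne {r : ℕ} (hr : r < M) (f : ℕ → ℕ) :
    (∑ q : Fin M, if r ≠ q.1 then f q.1 else 0) + f r = ∑ q ∈ range M, f q := by
  rw [Fin.sum_univ_eq_sum_range (fun q => if r ≠ q then f q else 0) M, ← Finset.sum_filter,
    ← Finset.sum_erase_add _ _ (mem_range.2 hr)]
  congr 1
  apply Finset.sum_congr _ (fun _ _ => rfl)
  ext q
  simp only [mem_filter, mem_range, mem_erase]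
  constructor
  · rintro ⟨h1, h2⟩; exact ⟨fun e => h2 e.symm, h1⟩
  · rintro ⟨h1, h2⟩; exact ⟨h2, fun e => h1 e.symm⟩

/-- degree of the low `i` -/
def cl (M i : ℕ) : ℕ := i + 1 + if i = 0 then 1 else if i = M - 1 then 1 else 0

theorem sum_N_inl (i : Fin M) (f : Fin M ⊕ Fin M → ℕ) :
    ∑ y ∈ N (.inl i), f y
      = (∑ j : Fin M, if (i.1 = 0 ∧ j.1 = M - 1) ∨ (i.1 = M - 1 ∧ j.1 = 0) then f (.inl j) else 0)
        + ∑ r : Fin M, if r.1 ≤ i.1 then f (.inr r) else 0 := by
  rw [N, Finset.sum_filter, Fintype.sum_sum_type]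
  simp only [ad, decide_eq_true_eq]

theorem sum_N_inr (r : Fin M) (f : Fin M ⊕ Fin M → ℕ) :
    ∑ y ∈ N (.inr r), f y
      = (∑ i : Fin M, if r.1 ≤ i.1 then f (.inl i) else 0)
        + ∑ q : Fin M, if r.1 ≠ q.1 then f (.inr q) else 0 := by
  rw [N, Finset.sum_filter, Fintype.sum_sum_type]
  simp only [ad, decide_eq_true_eq]

theorem card_N_inl (hM : 4 ≤ M) (i : Fin M) : (N (.inl i)).card = cl M i := by
  rw [Finset.card_eq_sum_ones, sum_N_inl, sum_ends hM (fun _ => 1), sum_le i.2 (fun _ => 1)]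
  simp only [sum_const, card_range, smul_eq_mul, mul_one, cl]
  omega

theorem card_N_inr (hM : 4 ≤ M) (r : Fin M) : (N (.inr r)).card = 2 * M - 1 - r := by
  have h1 := sum_ne (M := M) r.2 (fun _ => 1)
  rw [Finset.card_eq_sum_ones, sum_N_inr, sum_ge r.1 (fun _ => 1)]
  simp only [sum_const, card_range, smul_eq_mul, mul_one, Nat.card_Ico] at h1 ⊢
  have := r.2
  omega

/-- `w i` for lows -/
def w (M n i : ℕ) : ℕ := (cl M i - 1).choose (n - 1)

/-- value of a low vertex -/
theorem val_inl (hM : 4 ≤ M) {n : ℕ} (hn : 2 ≤ n) (i : Fin M) :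
    fdeg (star n) (gr hM) (.inl i) = (cl M i).choose n
      + (if i.1 = 0 then w M n (M - 1) else if i.1 = M - 1 then w M n 0 else 0)
      + ∑ r ∈ range (i.1 + 1), (2 * M - 2 - r).choose (n - 1) := by
  rw [fdeg_star (gr hM) N (mem_N hM) n hn, sum_N_inl, card_N_inl hM]
  have h1 : ∀ j : Fin M, ((N (Sum.inl j : Fin M ⊕ Fin M)).card - 1).choose (n - 1) = w M n j.1 :=
    fun j => by rw [card_N_inl hM]; rfl
  have h2 : ∀ r : Fin M, ((N (Sum.inr r : Fin M ⊕ Fin M)).card - 1).choose (n - 1)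
      = (2 * M - 2 - r.1).choose (n - 1) := fun r => by
    rw [card_N_inr hM]
    congr 1
    omega
  simp only [h1, h2]
  rw [sum_ends hM (w M n), sum_le i.2 (fun r => (2 * M - 2 - r).choose (n - 1))]
  ring

/-- value of a high vertex -/
theorem val_inr (hM : 4 ≤ M) {n : ℕ} (hn : 2 ≤ n) (r : Fin M) :
    fdeg (star n) (gr hM) (.inr r) = (2 * M - 2 - r.1).choose n
      + (∑ i ∈ Ico r.1 M, w M n i)
      + ∑ q ∈ range M, (2 * M - 2 - q).choose (n - 1) := by
  rw [fdeg_star (gr hM) N (mem_N hM) n hn, sum_N_inr, card_N_inr hM]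
  have h1 : ∀ j : Fin M, ((N (Sum.inl j : Fin M ⊕ Fin M)).card - 1).choose (n - 1) = w M n j.1 :=
    fun j => by rw [card_N_inl hM]; rfl
  have h2 : ∀ r : Fin M, ((N (Sum.inr r : Fin M ⊕ Fin M)).card - 1).choose (n - 1)
      = (2 * M - 2 - r.1).choose (n - 1) := fun r => by
    rw [card_N_inr hM]
    congr 1
    omega
  simp only [h1, h2]
  rw [sum_ge r.1 (w M n)]
  have h3 := sum_ne (M := M) r.2 (fun q => (2 * M - 2 - q).choose (n - 1))
  have h4 : (2 * M - 1 - r.1).choose n
      = (2 * M - 2 - r.1).choose (n - 1) + (2 * M - 2 - r.1).choose n := by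
    have e1 : 2 * M - 1 - r.1 = (2 * M - 2 - r.1) + 1 := by have := r.2; omega
    obtain ⟨n', rfl⟩ : ∃ n', n = n' + 1 := ⟨n - 1, by omega⟩
    rw [e1, Nat.choose_succ_succ, Nat.add_sub_cancel]
  rw [h4, ← h3]
  ring

theorem choose_lt {a b k : ℕ} (hk : 1 ≤ k) (hb : k ≤ b) (hab : a < b) : a.choose k < b.choose k := by
  obtain ⟨k', rfl⟩ : ∃ k', k = k' + 1 := ⟨k - 1, by omega⟩
  obtain ⟨b', rfl⟩ : ∃ b', b = b' + 1 := ⟨b - 1, by omega⟩
  rw [Nat.choose_succ_succ']
  have h1 : a.choose (k' + 1) ≤ b'.choose (k' + 1) := Nat.choose_le_choose _ (by omega)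
  have h2 : 0 < b'.choose k' := Nat.choose_pos (by omega)
  omega

/-- value of the low `i` -/
def VL (M n i : ℕ) : ℕ := (cl M i).choose n
      + (if i = 0 then w M n (M - 1) else if i = M - 1 then w M n 0 else 0)
      + ∑ r ∈ range (i + 1), (2 * M - 2 - r).choose (n - 1)

/-- value of the high `r` -/
def VH (M n r : ℕ) : ℕ := (2 * M - 2 - r).choose n + (∑ i ∈ Ico r M, w M n i)
      + ∑ q ∈ range M, (2 * M - 2 - q).choose (n - 1)

theorem w_mid {n i : ℕ} (h0 : 0 < i) (h1 : i < M - 1) : w M n i = i.choose (n - 1) := by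
  rw [w, cl, if_neg (by omega), if_neg (by omega)]
  rfl

theorem w_zero (n : ℕ) : w M n 0 = (1 : ℕ).choose (n - 1) := by
  rw [w, cl, if_pos rfl]

theorem w_last {n : ℕ} (hM : 4 ≤ M) : w M n (M - 1) = M.choose (n - 1) := by
  rw [w, cl, if_neg (by omega), if_pos rfl]
  congr 1
  omega

theorem VL_mid {n i j : ℕ} (hn : 2 ≤ n) (hMn : n + 1 ≤ M) (hi : 1 ≤ i)
    (hij : i < j) (hj : j ≤ M - 2) : VL M n i < VL M n j := by
  have e1 : ∀ t, 1 ≤ t → t ≤ M - 2 → VL M n t = (t + 1).choose n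
      + ∑ r ∈ range (t + 1), (2 * M - 2 - r).choose (n - 1) := by
    intro t h1 h2
    rw [VL, cl, if_neg (by omega), if_neg (by omega), if_neg (by omega), if_neg (by omega)]
    simp
  rw [e1 i hi (by omega), e1 j (by omega) hj]
  have h1 : (i + 1).choose n ≤ (j + 1).choose n := Nat.choose_le_choose _ (by omega)
  have h2 : ∑ r ∈ range (i + 1), (2 * M - 2 - r).choose (n - 1)
      < ∑ r ∈ range (j + 1), (2 * M - 2 - r).choose (n - 1) := by
    apply Finset.sum_lt_sum_of_subset (i := j)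
    · intro r hr; rw [mem_range] at hr ⊢; omega
    · rw [mem_range]; omega
    · rw [mem_range]; omega
    · exact Nat.choose_pos (by omega)
    · intro _ _ _; exact Nat.zero_le _
  omega

theorem VL_zero {n : ℕ} (hM : 4 ≤ M) (hn : 2 ≤ n) (hMn : n + 1 ≤ M) :
    VL M n 0 < VL M n 1 := by
  have e0 : VL M n 0 = (2 : ℕ).choose n + M.choose (n - 1) + (2 * M - 2).choose (n - 1) := by
    rw [VL, cl, if_pos rfl, if_pos rfl, w_last hM]
    simp
  have e1 : VL M n 1 = (2 : ℕ).choose n + (2 * M - 3).choose (n - 1)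
      + (2 * M - 2).choose (n - 1) := by
    rw [VL, cl, if_neg (by omega), if_neg (by omega), if_neg (by omega), if_neg (by omega),
      Finset.sum_range_succ, Finset.sum_range_succ]
    have : 2 * M - 2 - 1 = 2 * M - 3 := by omega
    rw [this]
    simp only [range_zero, sum_empty, zero_add, Nat.sub_zero, Nat.add_zero]
    ring
  rw [e0, e1]
  have := choose_lt (a := M) (b := 2 * M - 3) (k := n - 1) (by omega) (by omega) (by omega)
  omega

theorem sum_split {n : ℕ} (hM : 4 ≤ M) :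
    ∑ q ∈ range M, (2 * M - 2 - q).choose (n - 1)
      = ∑ q ∈ range (M - 2 + 1), (2 * M - 2 - q).choose (n - 1) + (M - 1).choose (n - 1) := by
  have e : M = (M - 2 + 1) + 1 := by omega
  conv_lhs => rw [show range M = range ((M - 2 + 1) + 1) by rw [← e]]
  rw [Finset.sum_range_succ]
  congr 2
  omega

theorem VL_VH {n : ℕ} (hM : 4 ≤ M) (hn : 2 ≤ n) (hMn : n + 1 ≤ M) :
    VL M n (M - 2) < VH M n (M - 1) := by
  have e0 : VL M n (M - 2) = (M - 1).choose n
      + ∑ r ∈ range (M - 2 + 1), (2 * M - 2 - r).choose (n - 1) := by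
    rw [VL, cl, if_neg (by omega), if_neg (by omega), if_neg (by omega), if_neg (by omega)]
    have : M - 2 + 1 + 0 = M - 1 := by omega
    rw [this]
    simp
  have e1 : VH M n (M - 1) = (M - 1).choose n + M.choose (n - 1)
      + ∑ q ∈ range M, (2 * M - 2 - q).choose (n - 1) := by
    have h1 : Ico (M - 1) M = {M - 1} := by
      ext t; simp only [mem_Ico, mem_singleton]; omega
    rw [VH, h1, Finset.sum_singleton, w_last hM]
    have : 2 * M - 2 - (M - 1) = M - 1 := by omega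
    rw [this]
  rw [e0, e1, sum_split hM]
  have : 0 < M.choose (n - 1) := Nat.choose_pos (by omega)
  omega

theorem VH_last {n : ℕ} (hM : 4 ≤ M) : VH M n (M - 1) = (M - 1).choose n + M.choose (n - 1)
      + ∑ q ∈ range M, (2 * M - 2 - q).choose (n - 1) := by
  have h1 : Ico (M - 1) M = {M - 1} := by
    ext t; simp only [mem_Ico, mem_singleton]; omega
  rw [VH, h1, Finset.sum_singleton, w_last hM]
  have : 2 * M - 2 - (M - 1) = M - 1 := by omega
  rw [this]

theorem VL_last {n : ℕ} (hM : 4 ≤ M) : VL M n (M - 1) = (M + 1).choose n + (1 : ℕ).choose (n - 1)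
      + ∑ q ∈ range M, (2 * M - 2 - q).choose (n - 1) := by
  rw [VL, cl, if_neg (by omega), if_pos rfl, if_neg (by omega), if_pos rfl, w_zero]
  have : M - 1 + 1 = M := by omega
  rw [this]

theorem pascal {a n : ℕ} (hn : 1 ≤ n) : (a + 1).choose n = a.choose (n - 1) + a.choose n := by
  obtain ⟨n', rfl⟩ : ∃ n', n = n' + 1 := ⟨n - 1, by omega⟩
  rw [Nat.choose_succ_succ', Nat.add_sub_cancel]

theorem VH_VL {n : ℕ} (hM : 4 ≤ M) (hn : 2 ≤ n) (hMn : n + 1 ≤ M) :
    VH M n (M - 1) < VL M n (M - 1) := by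
  rw [VH_last hM, VL_last hM, pascal (by omega)]
  have h1 : M.choose n = (M - 1).choose (n - 1) + (M - 1).choose n := by
    have := pascal (a := M - 1) (n := n) (by omega)
    rwa [show M - 1 + 1 = M by omega] at this
  have h2 : 0 < (M - 1).choose (n - 1) := Nat.choose_pos (by omega)
  omega

theorem VL_VH' {n : ℕ} (hM : 4 ≤ M) (hn : 2 ≤ n) (hMn : n + 1 ≤ M) :
    VL M n (M - 1) < VH M n (M - 2) := by
  have e1 : VH M n (M - 2) = M.choose n + ((M - 2).choose (n - 1) + M.choose (n - 1))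
      + ∑ q ∈ range M, (2 * M - 2 - q).choose (n - 1) := by
    have h1 : Ico (M - 2) M = {M - 2, M - 1} := by
      ext t; simp only [mem_Ico, mem_insert, mem_singleton]; omega
    rw [VH, h1, Finset.sum_pair (by omega), w_last hM, w_mid (by omega) (by omega)]
    have : 2 * M - 2 - (M - 2) = M := by omega
    rw [this]
  rw [e1, VL_last hM, pascal (by omega)]
  have := choose_lt (a := 1) (b := M - 2) (k := n - 1) (by omega) (by omega) (by omega)
  omega

theorem VH_lt {n r q : ℕ} (hn : 2 ≤ n) (hMn : n + 1 ≤ M) (hrq : r < q) (hq : q ≤ M - 1) :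
    VH M n q < VH M n r := by
  have h1 : (2 * M - 2 - q).choose n < (2 * M - 2 - r).choose n :=
    choose_lt (by omega) (by omega) (by omega)
  have h2 : ∑ i ∈ Ico q M, w M n i ≤ ∑ i ∈ Ico r M, w M n i := by
    apply Finset.sum_le_sum_of_subset
    intro t ht
    rw [mem_Ico] at ht ⊢
    omega
  rw [VH, VH]
  omega

theorem VL_le {n i : ℕ} (hM : 4 ≤ M) (hn : 2 ≤ n) (hMn : n + 1 ≤ M) (hi : i ≤ M - 2) :
    VL M n i ≤ VL M n (M - 2) := by
  rcases Nat.eq_zero_or_pos i with rfl | h0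
  · have h1 := VL_zero hM hn hMn
    rcases Nat.lt_or_ge 1 (M - 2) with h | h
    · have h2 := VL_mid (M := M) hn hMn (i := 1) (j := M - 2) le_rfl h le_rfl
      omega
    · omega
  · rcases Nat.lt_or_ge i (M - 2) with h | h
    · exact (VL_mid hn hMn h0 h le_rfl).le
    · have : i = M - 2 := by omega
      rw [this]

theorem VL_lt {n i j : ℕ} (hM : 4 ≤ M) (hn : 2 ≤ n) (hMn : n + 1 ≤ M) (hij : i < j)
    (hj : j ≤ M - 1) : VL M n i < VL M n j := by
  rcases Nat.lt_or_ge j (M - 1) with h | h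
  · rcases Nat.eq_zero_or_pos i with rfl | h0
    · have h1 := VL_zero hM hn hMn
      rcases Nat.lt_or_ge 1 j with h' | h'
      · have h2 := VL_mid (M := M) hn hMn (i := 1) (j := j) le_rfl h' (by omega)
        omega
      · have : j = 1 := by omega
        rw [this]; exact h1
    · exact VL_mid hn hMn h0 hij (by omega)
  · have : j = M - 1 := by omega
    rw [this]
    have h1 := VL_le hM hn hMn (i := i) (by omega)
    have h2 := VL_VH hM hn hMn
    have h3 := VH_VL hM hn hMn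
    omega

theorem VL_ne_VH {n i r : ℕ} (hM : 4 ≤ M) (hn : 2 ≤ n) (hMn : n + 1 ≤ M) (hi : i < M)
    (hr : r < M) : VL M n i ≠ VH M n r := by
  rcases Nat.lt_or_ge i (M - 1) with h | h
  · have h1 := VL_le hM hn hMn (i := i) (by omega)
    have h2 := VL_VH hM hn hMn
    have h3 : VH M n (M - 1) ≤ VH M n r := by
      rcases Nat.lt_or_ge r (M - 1) with h | h
      · exact (VH_lt hn hMn h le_rfl).le
      · have : r = M - 1 := by omega
        rw [this]
    omega
  · have hi' : i = M - 1 := by omega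
    rw [hi']
    rcases Nat.lt_or_ge r (M - 1) with h | h
    · have h1 := VL_VH' hM hn hMn
      have h3 : VH M n (M - 2) ≤ VH M n r := by
        rcases Nat.lt_or_ge r (M - 2) with h | h
        · exact (VH_lt hn hMn h (by omega)).le
        · have : r = M - 2 := by omega
          rw [this]
      omega
    · have : r = M - 1 := by omega
      rw [this]
      exact (VH_VL hM hn hMn).ne'

/-- The graph is `K_{1,n}`-irregular. -/
theorem irregular {n : ℕ} (hM : 4 ≤ M) (hn : 2 ≤ n) (hMn : n + 1 ≤ M) :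
    IsIrregular (star n) (gr hM) := by
  have e1 : ∀ i : Fin M, fdeg (star n) (gr hM) (.inl i) = VL M n i.1 := fun i => val_inl hM hn i
  have e2 : ∀ i : Fin M, fdeg (star n) (gr hM) (.inr i) = VH M n i.1 := fun i => val_inr hM hn i
  rintro (i | i) (j | j) h
  · rw [e1, e1] at h
    have hi := i.2
    have hj := j.2
    rcases lt_trichotomy i.1 j.1 with h' | h' | h'
    · have := VL_lt hM hn hMn h' (by omega); omega
    · rw [Fin.ext h']
    · have := VL_lt hM hn hMn h' (by omega); omega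
  · rw [e1, e2] at h
    exact absurd h (VL_ne_VH hM hn hMn i.2 j.2)
  · rw [e1, e2] at h
    exact absurd h.symm (VL_ne_VH hM hn hMn j.2 i.2)
  · rw [e2, e2] at h
    have hi := i.2
    have hj := j.2
    rcases lt_trichotomy i.1 j.1 with h' | h' | h'
    · have := VH_lt (M := M) hn hMn h' (by omega); omega
    · rw [Fin.ext h']
    · have := VH_lt (M := M) hn hMn h' (by omega); omega

end Pool.Agent.Q105.Irr.Star
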