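import Mathlib
import Pool.Agent.Q105.Irr.Clique
import Pool.Agent.Q105.Irr.Star

/-!
A finite tail extends to an infinite family of `K_n`-irregular graphs.
-/

namespace Pool.Agent.Q105.Irr.Fam

open Finset Pool.Agent.Q105.Irr Pool.Agent.Q105.Irr.Clq
open Pool.Agent.Q105.Irr.Star (choose_lt pascal)


section

variable {T J : Type} [Fintype T] [DecidableEq T] [Fintype J] [DecidableEq J]

/-- nominal size -/
def nu (Nt : J → Finset T) (a0 j : J) : ℕ := (Nt j).card + if j = a0 then 1 else 0

/-- the neighbourhoods of the special vertices in the extended graph -/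
def Nx (Nt : J → Finset T) (k : ℕ) : J ⊕ Fin k → Finset (T ⊕ Fin k)
  | .inl j => (Nt j).disjSum ∅
  | .inr i => univ.disjSum (Iio i)

variable {Nt : J → Finset T} {a0 : J} {k n : ℕ}

theorem Nx_inl_card (j : J) : (Nx Nt k (.inl j)).card = (Nt j).card := by
  simp [Nx]

theorem Nx_inr_card (i : Fin k) : (Nx Nt k (.inr i)).card = Fintype.card T + i.1 := by
  simp [Nx]

/-- the last special vertex of the nested sequence -/
def lst (hk : 2 ≤ k) : Fin k := ⟨k - 1, by omega⟩

theorem ab_ne (hk : 2 ≤ k) : (Sum.inl a0 : J ⊕ Fin k) ≠ Sum.inr (lst hk) := by simp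

theorem ab_sub (hk : 2 ≤ k) : Nx Nt k (.inl a0) ⊆ Nx Nt k (.inr (lst hk)) := by
  intro q hq
  rcases q with t | l
  · simp [Nx]
  · simp [Nx] at hq

/-- The extended graph. -/
def ext (Nt : J → Finset T) (a0 : J) (hk : 2 ≤ k) : SimpleGraph ((T ⊕ Fin k) ⊕ (J ⊕ Fin k)) :=
  gr (Nx Nt k) (.inl a0) (.inr (lst hk)) (ab_ne hk)

theorem card_Q : Fintype.card (T ⊕ Fin k) = Fintype.card T + k := by simp

theorem val_J (hk : 2 ≤ k) (hn : 3 ≤ n) (j : J) :
    fdeg (⊤ : SimpleGraph (Fin n)) (ext Nt a0 hk) (.inr (.inl j)) = (nu Nt a0 j).choose (n - 1) := by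
  rw [ext, fdeg_inr _ (ab_sub hk) n hn, Nx_inl_card, Nx_inl_card, nu]
  by_cases h : j = a0
  · subst h
    rw [if_pos (Or.inl rfl), if_pos rfl, pascal (by omega), Nat.sub_sub]
  · rw [if_neg, if_neg h, Nat.add_zero, Nat.zero_add]
    simpa using h

theorem val_i (hk : 2 ≤ k) (hn : 3 ≤ n) (i : Fin k) :
    fdeg (⊤ : SimpleGraph (Fin n)) (ext Nt a0 hk) (.inr (.inr i))
      = (if i.1 = k - 1 then (Nt a0).card.choose (n - 2) else 0)
        + (Fintype.card T + i.1).choose (n - 1) := by
  rw [ext, fdeg_inr _ (ab_sub hk) n hn, Nx_inl_card, Nx_inr_card]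
  congr 1
  by_cases h : i.1 = k - 1
  · rw [if_pos h, if_pos]
    right
    congr 1
    exact Fin.ext h
  · rw [if_neg h, if_neg]
    rintro (h' | h')
    · simp at h'
    · exact h (congrArg Fin.val (Sum.inr.inj h'))

/-- the sum over the nested special vertices above `l` -/
def R (τ n k l : ℕ) : ℕ := ∑ i ∈ range k, if l < i then (τ + i - 1).choose (n - 2) else 0

/-- the sum over all nested special vertices -/
def Rall (τ n k : ℕ) : ℕ := ∑ i ∈ range k, (τ + i - 1).choose (n - 2)

/-- the tail sum -/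
def tsum (Nt : J → Finset T) (a0 : J) (n : ℕ) (t : T) : ℕ :=
  ∑ j, if t ∈ Nt j then (nu Nt a0 j - 1).choose (n - 2) else 0

theorem val_l (hk : 2 ≤ k) (hn : 3 ≤ n) (l : Fin k) :
    fdeg (⊤ : SimpleGraph (Fin n)) (ext Nt a0 hk) (.inl (.inr l))
      = (Fintype.card T + k - 1).choose (n - 1) + R (Fintype.card T) n k l.1 := by
  rw [ext, fdeg_inl _ (ab_sub hk) n hn, card_Q, if_neg (by simp [Nx]), Nat.add_zero,
    Fintype.sum_sum_type]
  have h1 : (∑ j : J, if (Sum.inr l : T ⊕ Fin k) ∈ Nx Nt k (.inl j) then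
      ((Nx Nt k (.inl j)).card - 1).choose (n - 2) else 0) = 0 := by
    apply Finset.sum_eq_zero
    intro j _
    rw [if_neg (by simp [Nx])]
  rw [h1, Nat.zero_add, R, ← Fin.sum_univ_eq_sum_range
    (fun i => if l.1 < i then (Fintype.card T + i - 1).choose (n - 2) else 0) k]
  congr 1
  apply Finset.sum_congr rfl
  intro i _
  rw [Nx_inr_card]
  by_cases h : l.1 < i.1
  · rw [if_pos h, if_pos]
    simp only [Nx, inr_mem_disjSum, mem_Iio]
    exact h
  · rw [if_neg h, if_neg]
    simp only [Nx, inr_mem_disjSum, mem_Iio]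
    exact h

theorem val_t (hk : 2 ≤ k) (hn : 3 ≤ n) (ha : 1 ≤ (Nt a0).card) (t : T) :
    fdeg (⊤ : SimpleGraph (Fin n)) (ext Nt a0 hk) (.inl (.inl t))
      = (Fintype.card T + k - 1).choose (n - 1) + Rall (Fintype.card T) n k
        + tsum Nt a0 n t := by
  rw [ext, fdeg_inl _ (ab_sub hk) n hn, card_Q, Fintype.sum_sum_type, Nx_inl_card]
  have h2 : (∑ i : Fin k, if (Sum.inl t : T ⊕ Fin k) ∈ Nx Nt k (.inr i) then
      ((Nx Nt k (.inr i)).card - 1).choose (n - 2) else 0) = Rall (Fintype.card T) n k := by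
    rw [Rall, ← Fin.sum_univ_eq_sum_range
      (fun i => (Fintype.card T + i - 1).choose (n - 2)) k]
    apply Finset.sum_congr rfl
    intro i _
    rw [Nx_inr_card, if_pos]
    simp [Nx]
  have h1 : (if (Sum.inl t : T ⊕ Fin k) ∈ Nx Nt k (.inl a0) then
      ((Nt a0).card - 1).choose (n - 3) else 0)
      + (∑ j : J, if (Sum.inl t : T ⊕ Fin k) ∈ Nx Nt k (.inl j) then
      ((Nx Nt k (.inl j)).card - 1).choose (n - 2) else 0) = tsum Nt a0 n t := by
    rw [tsum, ← Finset.add_sum_erase univ (fun j => if t ∈ Nt j then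
      (nu Nt a0 j - 1).choose (n - 2) else 0) (mem_univ a0), ← Finset.add_sum_erase univ
      (fun j => if (Sum.inl t : T ⊕ Fin k) ∈ Nx Nt k (.inl j) then
      ((Nx Nt k (.inl j)).card - 1).choose (n - 2) else 0) (mem_univ a0), ← add_assoc]
    congr 1
    · simp only [Nx, inl_mem_disjSum]
      by_cases h : t ∈ Nt a0
      · rw [if_pos h, if_pos h, if_pos h, nu, if_pos rfl, Nat.add_sub_cancel, card_disjSum,
          card_empty, Nat.add_zero]
        have h3 := pascal (a := (Nt a0).card - 1) (n := n - 2) (by omega)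
        rw [show (Nt a0).card - 1 + 1 = (Nt a0).card by omega,
          show n - 2 - 1 = n - 3 by omega] at h3
        exact h3.symm
      · rw [if_neg h, if_neg h, if_neg h]
    · apply Finset.sum_congr rfl
      intro j hj
      rw [Nx_inl_card, nu, if_neg (mem_erase.1 hj).1, Nat.add_zero]
      simp only [Nx, inl_mem_disjSum]
  rw [h2, ← h1]
  ring

theorem R_last {τ : ℕ} : R τ n k (k - 1) = 0 := by
  apply Finset.sum_eq_zero
  intro i hi
  rw [mem_range] at hi
  rw [if_neg (by omega)]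

theorem R_anti {τ l l' : ℕ} (hn : 3 ≤ n) (hτ : n ≤ τ) (h : l < l') (hl : l' < k) :
    R τ n k l' < R τ n k l := by
  rw [R, R]
  apply Finset.sum_lt_sum
  · intro i _
    split_ifs with h1 h2
    · exact le_rfl
    · omega
    · exact Nat.zero_le _
    · exact le_rfl
  · refine ⟨l', mem_range.2 hl, ?_⟩
    rw [if_neg (lt_irrefl _), if_pos h]
    exact Nat.choose_pos (by omega)

theorem R_ge {τ l : ℕ} (hk : 2 ≤ k) (h : l < k - 1) : (τ + k - 2).choose (n - 2) ≤ R τ n k l := by
  have h1 := Finset.single_le_sum (f := fun i => if l < i then (τ + i - 1).choose (n - 2) else 0)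
    (fun i _ => Nat.zero_le _) (mem_range.2 (show k - 1 < k by omega))
  rw [R]
  rw [if_pos h, show τ + (k - 1) - 1 = τ + k - 2 by omega] at h1
  exact h1

theorem Rall_ge {τ : ℕ} (hk : 2 ≤ k) : (τ + k - 2).choose (n - 2) ≤ Rall τ n k := by
  have h1 := Finset.single_le_sum (f := fun i => (τ + i - 1).choose (n - 2))
    (fun i _ => Nat.zero_le _) (mem_range.2 (show k - 1 < k by omega))
  rw [Rall]
  rw [show τ + (k - 1) - 1 = τ + k - 2 by omega] at h1
  exact h1

theorem R_lt_all {τ l : ℕ} (hk : 2 ≤ k) (hn : 3 ≤ n) (hτ : n ≤ τ) : R τ n k l < Rall τ n k := by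
  rw [R, Rall]
  apply Finset.sum_lt_sum
  · intro i _
    split_ifs
    · exact le_rfl
    · exact Nat.zero_le _
  · refine ⟨0, mem_range.2 (by omega), ?_⟩
    rw [if_neg (Nat.not_lt_zero _)]
    exact Nat.choose_pos (by omega)

/-- **Extension theorem.** -/
theorem irregular_ext (hk : 2 ≤ k) (hn : 3 ≤ n) (hlow : ∀ j, n - 1 ≤ nu Nt a0 j)
    (hup : ∀ j, nu Nt a0 j < Fintype.card T) (hinj : Function.Injective (nu Nt a0))
    (hsum : Function.Injective (tsum Nt a0 n)) :
    IsIrregular (⊤ : SimpleGraph (Fin n)) (ext Nt a0 hk) := by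
  have ha1 : (Nt a0).card + 1 = nu Nt a0 a0 := by rw [nu, if_pos rfl]
  have ha2 := hlow a0
  have ha3 := hup a0
  have hτ : n ≤ Fintype.card T := by omega
  have ha : 1 ≤ (Nt a0).card := by omega
  set τ := Fintype.card T with hτdef
  have eJ : ∀ j, fdeg (⊤ : SimpleGraph (Fin n)) (ext Nt a0 hk) (.inr (.inl j))
      = (nu Nt a0 j).choose (n - 1) := fun j => val_J hk hn j
  have ei : ∀ i : Fin k, fdeg (⊤ : SimpleGraph (Fin n)) (ext Nt a0 hk) (.inr (.inr i))
      = (if i.1 = k - 1 then (Nt a0).card.choose (n - 2) else 0) + (τ + i.1).choose (n - 1) :=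
    fun i => val_i hk hn i
  have el : ∀ l : Fin k, fdeg (⊤ : SimpleGraph (Fin n)) (ext Nt a0 hk) (.inl (.inr l))
      = (τ + k - 1).choose (n - 1) + R τ n k l.1 := fun l => val_l hk hn l
  have et : ∀ t : T, fdeg (⊤ : SimpleGraph (Fin n)) (ext Nt a0 hk) (.inl (.inl t))
      = (τ + k - 1).choose (n - 1) + Rall τ n k + tsum Nt a0 n t := fun t => val_t hk hn ha t
  -- bounds
  have bJ : ∀ j, (nu Nt a0 j).choose (n - 1) < τ.choose (n - 1) :=
    fun j => choose_lt (by omega) (by omega) (hup j)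
  have bτ : ∀ i, τ.choose (n - 1) ≤ (τ + i).choose (n - 1) :=
    fun i => Nat.choose_le_choose _ (by omega)
  have bE : τ.choose (n - 1) ≤ (τ + k - 1).choose (n - 1) := Nat.choose_le_choose _ (by omega)
  have bi : ∀ i, i < k - 1 → (τ + i).choose (n - 1) < (τ + k - 1).choose (n - 1) :=
    fun i hi => choose_lt (by omega) (by omega) (by omega)
  have bii : ∀ i i', i < i' → (τ + i).choose (n - 1) < (τ + i').choose (n - 1) :=
    fun i i' hi => choose_lt (by omega) (by omega) (by omega)
  have bC : (Nt a0).card.choose (n - 2) < (τ + k - 2).choose (n - 2) :=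
    choose_lt (by omega) (by omega) (by omega)
  have bC0 : 0 < (Nt a0).card.choose (n - 2) := Nat.choose_pos (by omega)
  have bR := R_last (n := n) (k := k) (τ := τ)
  -- pairs of different kinds
  have nJi : ∀ j (i : Fin k), (nu Nt a0 j).choose (n - 1)
      ≠ (if i.1 = k - 1 then (Nt a0).card.choose (n - 2) else 0) + (τ + i.1).choose (n - 1) := by
    intro j i
    have h1 := bJ j
    have h2 := bτ i.1
    omega
  have nJl : ∀ j (l : Fin k), (nu Nt a0 j).choose (n - 1)
      ≠ (τ + k - 1).choose (n - 1) + R τ n k l.1 := by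
    intro j l
    have h1 := bJ j
    omega
  have nJt : ∀ j (t : T), (nu Nt a0 j).choose (n - 1)
      ≠ (τ + k - 1).choose (n - 1) + Rall τ n k + tsum Nt a0 n t := by
    intro j l
    have h1 := bJ j
    omega
  have nil : ∀ (i l : Fin k),
      (if i.1 = k - 1 then (Nt a0).card.choose (n - 2) else 0) + (τ + i.1).choose (n - 1)
        ≠ (τ + k - 1).choose (n - 1) + R τ n k l.1 := by
    intro i l
    by_cases hi : i.1 = k - 1
    · rw [if_pos hi, hi, show τ + (k - 1) = τ + k - 1 by omega]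
      by_cases hl : l.1 = k - 1
      · rw [hl, bR]; omega
      · have h1 := R_ge (n := n) (τ := τ) (l := l.1) hk (by have := l.2; omega)
        omega
    · rw [if_neg hi]
      have h1 := bi i.1 (by have := i.2; omega)
      omega
  have nit : ∀ (i : Fin k) (t : T),
      (if i.1 = k - 1 then (Nt a0).card.choose (n - 2) else 0) + (τ + i.1).choose (n - 1)
        ≠ (τ + k - 1).choose (n - 1) + Rall τ n k + tsum Nt a0 n t := by
    intro i t
    by_cases hi : i.1 = k - 1
    · rw [if_pos hi, hi, show τ + (k - 1) = τ + k - 1 by omega]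
      have h1 := Rall_ge (n := n) (τ := τ) hk
      omega
    · rw [if_neg hi]
      have h1 := bi i.1 (by have := i.2; omega)
      omega
  have nlt : ∀ (l : Fin k) (t : T), (τ + k - 1).choose (n - 1) + R τ n k l.1
        ≠ (τ + k - 1).choose (n - 1) + Rall τ n k + tsum Nt a0 n t := by
    intro l t
    have h1 := R_lt_all (l := l.1) hk hn hτ
    omega
  rintro ((t | l) | (j | i)) ((t' | l') | (j' | i')) h
  · rw [et, et] at h
    have : tsum Nt a0 n t = tsum Nt a0 n t' := by omega
    rw [hsum this]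
  · rw [et, el] at h; exact absurd h.symm (nlt _ _)
  · rw [et, eJ] at h; exact absurd h.symm (nJt _ _)
  · rw [et, ei] at h; exact absurd h.symm (nit _ _)
  · rw [el, et] at h; exact absurd h (nlt _ _)
  · rw [el, el] at h
    rcases lt_trichotomy l.1 l'.1 with h' | h' | h'
    · have := R_anti (n := n) (τ := τ) hn hτ h' l'.2; omega
    · rw [Fin.ext h']
    · have := R_anti (n := n) (τ := τ) hn hτ h' l.2; omega
  · rw [el, eJ] at h; exact absurd h.symm (nJl _ _)
  · rw [el, ei] at h; exact absurd h.symm (nil _ _)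
  · rw [eJ, et] at h; exact absurd h (nJt _ _)
  · rw [eJ, el] at h; exact absurd h (nJl _ _)
  · rw [eJ, eJ] at h
    have : nu Nt a0 j = nu Nt a0 j' := by
      rcases lt_trichotomy (nu Nt a0 j) (nu Nt a0 j') with h' | h' | h'
      · have := choose_lt (k := n - 1) (by omega) (hlow j') h'; omega
      · exact h'
      · have := choose_lt (k := n - 1) (by omega) (hlow j) h'; omega
    rw [hinj this]
  · rw [eJ, ei] at h; exact absurd h (nJi _ _)
  · rw [ei, et] at h; exact absurd h (nit _ _)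
  · rw [ei, el] at h; exact absurd h (nil _ _)
  · rw [ei, eJ] at h; exact absurd h.symm (nJi _ _)
  · rw [ei, ei] at h
    rcases lt_trichotomy i.1 i'.1 with h' | h' | h'
    · have h1 := bii _ _ h'
      rw [if_neg (by have := i'.2; omega)] at h
      omega
    · rw [Fin.ext h']
    · have h1 := bii _ _ h'
      rw [if_neg (c := i'.1 = k - 1) (by have := i.2; omega)] at h
      omega

theorem card_ext : Fintype.card ((T ⊕ Fin k) ⊕ (J ⊕ Fin k))
    = Fintype.card T + Fintype.card J + 2 * k := by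
  simp only [Fintype.card_sum, Fintype.card_fin]
  ring

end

end Pool.Agent.Q105.Irr.Fam
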