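import Mathlib
import Pool.Agent.Q105.Irr.Family

/-!
The tails for `n = 3` and `n ≥ 4`, and the infinite families of `K_n`-irregular graphs.
-/

namespace Pool.Agent.Q105.Irr.Tail

open Finset Pool.Agent.Q105.Irr Pool.Agent.Q105.Irr.Clq Pool.Agent.Q105.Irr.Fam

/-- Subset sums of a superincreasing sequence are distinct. -/
theorem superinc (v : ℕ → ℕ) : ∀ t, (∀ j < t, ∑ i ∈ range j, v i < v j) →
    ∀ A B : Finset ℕ, A ⊆ range t → B ⊆ range t → ∑ i ∈ A, v i = ∑ i ∈ B, v i → A = B := by
  intro t
  induction t with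
  | zero =>
    intro _ A B hA hB _
    rw [range_zero, subset_empty] at hA hB
    rw [hA, hB]
  | succ t ih =>
    intro h A B hA hB hs
    have hlt : ∀ C : Finset ℕ, C ⊆ range (t + 1) → t ∉ C → C ⊆ range t := by
      intro C hC ht x hx
      have := mem_range.1 (hC hx)
      rw [mem_range]
      have : x ≠ t := fun e => ht (e ▸ hx)
      omega
    have hsm : ∀ C : Finset ℕ, C ⊆ range t → ∑ i ∈ C, v i < v t := by
      intro C hC
      exact lt_of_le_of_lt (Finset.sum_le_sum_of_subset hC) (h t (Nat.lt_succ_self t))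
    have ih' := ih (fun j hj => h j (by omega))
    by_cases hA' : t ∈ A
    · by_cases hB' : t ∈ B
      · have h1 : A.erase t = B.erase t := by
          apply ih'
          · apply hlt _ ((Finset.erase_subset _ _).trans hA) (Finset.notMem_erase _ _)
          · apply hlt _ ((Finset.erase_subset _ _).trans hB) (Finset.notMem_erase _ _)
          · rw [← Finset.add_sum_erase _ _ hA', ← Finset.add_sum_erase _ _ hB'] at hs
            omega
        rw [← Finset.insert_erase hA', ← Finset.insert_erase hB', h1]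
      · have h1 := hsm B (hlt B hB hB')
        rw [← Finset.add_sum_erase _ _ hA'] at hs
        omega
    · by_cases hB' : t ∈ B
      · have h1 := hsm A (hlt A hA hA')
        rw [← Finset.add_sum_erase _ _ hB'] at hs
        omega
      · exact ih' A B (hlt A hA hA') (hlt B hB hB') hs

/-- The weights are superincreasing. -/
theorem super_choose (t : ℕ) (ht : 1 ≤ t) : ∀ j < t,
    ∑ i ∈ range j, (t + i - 1).choose (t - 1) < (t + j - 1).choose (t - 1) := by
  intro j hj
  obtain ⟨t', rfl⟩ : ∃ t', t = t' + 1 := ⟨t - 1, by omega⟩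
  have hs : ∀ j, ∑ i ∈ range j, (t' + 1 + i - 1).choose (t' + 1 - 1)
      = (t' + j).choose (t' + 1) := by
    intro j
    induction j with
    | zero => simp
    | succ j ih =>
      rw [Finset.sum_range_succ, ih, ← Nat.add_assoc, Nat.choose_succ_succ', Nat.add_comm]
      congr 2
      omega
  rw [hs]
  have e : t' + 1 + j - 1 = t' + j := by omega
  rw [e, Nat.add_sub_cancel]
  have h1 := Nat.choose_succ_right_eq (t' + j) t'
  rw [Nat.add_sub_cancel_left] at h1
  have h2 : 0 < (t' + j).choose t' := Nat.choose_pos (by omega)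
  by_contra hc
  push Not at hc
  have h3 : (t' + j).choose t' * j < (t' + j).choose t' * (t' + 1) :=
    Nat.mul_lt_mul_of_pos_left hj h2
  have h4 : (t' + j).choose t' * (t' + 1) ≤ (t' + j).choose (t' + 1) * (t' + 1) :=
    Nat.mul_le_mul_right _ hc
  omega

/-- the index type of the tail -/
abbrev Tt (t : ℕ) : Type := Fin (t + 1) ⊕ Fin (t - 1) ⊕ Fin 1

/-- the incidence sets -/
def vec (t : ℕ) : Tt t → Finset ℕ
  | .inl i => Ico i.1 t
  | .inr (.inl i) => (range t).erase (i.1 + 1)
  | .inr (.inr _) => Ico 1 (t - 1)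

theorem vec_sub (t : ℕ) (y : Tt t) : vec t y ⊆ range t := by
  rcases y with i | i | i
  · intro x hx
    simp only [vec, mem_Ico] at hx
    exact mem_range.2 hx.2
  · exact Finset.erase_subset _ _
  · intro x hx
    simp only [vec, mem_Ico] at hx
    exact mem_range.2 (by omega)

theorem vec_inj {t : ℕ} (ht : 3 ≤ t) : Function.Injective (vec t) := by
  have hab : ∀ (i : Fin (t + 1)) (i' : Fin (t - 1)), Ico i.1 t ≠ (range t).erase (i'.1 + 1) := by
    intro i i' h
    have h0 : (0 : ℕ) ∈ (range t).erase (i'.1 + 1) := by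
      rw [mem_erase, mem_range]; omega
    rw [← h, mem_Ico] at h0
    have h1 : i'.1 + 1 ∈ Ico i.1 t := by
      rw [mem_Ico]
      have := i'.2
      omega
    rw [h] at h1
    exact absurd h1 (Finset.notMem_erase _ _)
  have hac : ∀ (i : Fin (t + 1)), Ico i.1 t ≠ Ico 1 (t - 1) := by
    intro i h
    have h0 : (1 : ℕ) ∈ Ico 1 (t - 1) := by rw [mem_Ico]; omega
    rw [← h, mem_Ico] at h0
    have h1 : t - 1 ∈ Ico i.1 t := by rw [mem_Ico]; omega
    rw [h, mem_Ico] at h1
    omega
  have hbc : ∀ (i : Fin (t - 1)), (range t).erase (i.1 + 1) ≠ Ico 1 (t - 1) := by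
    intro i h
    have h0 : (0 : ℕ) ∈ (range t).erase (i.1 + 1) := by
      rw [mem_erase, mem_range]; omega
    rw [h, mem_Ico] at h0
    omega
  rintro (i | i | i) (j | j | j) h
  · simp only [vec] at h
    congr 1
    apply Fin.ext
    rcases lt_trichotomy i.1 j.1 with h' | h' | h'
    · have h1 : i.1 ∈ Ico i.1 t := by
        rw [mem_Ico]; have := j.2; omega
      rw [h, mem_Ico] at h1
      omega
    · exact h'
    · have h1 : j.1 ∈ Ico j.1 t := by
        rw [mem_Ico]; have := i.2; omega
      rw [← h, mem_Ico] at h1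
      omega
  · exact absurd h (hab i j)
  · exact absurd h (hac i)
  · exact absurd h.symm (hab j i)
  · simp only [vec] at h
    congr 2
    apply Fin.ext
    by_contra hne
    have h1 : i.1 + 1 ∈ (range t).erase (j.1 + 1) := by
      rw [mem_erase, mem_range]
      have := i.2
      omega
    rw [← h] at h1
    exact absurd h1 (Finset.notMem_erase _ _)
  · exact absurd h (hbc i)
  · exact absurd h.symm (hac j)
  · exact absurd h.symm (hbc j)
  · rw [Subsingleton.elim i j]

/-- the neighbourhoods of the tail -/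
def Nt (t : ℕ) (j : Fin t) : Finset (Tt t) := univ.filter (fun y => j.1 ∈ vec t y)

theorem card_Nt {t : ℕ} (ht : 3 ≤ t) (j : Fin t) :
    (Nt t j).card = if j.1 = t - 1 then 2 * t - 2 else j.1 + t := by
  have hj := j.2
  rw [Nt, Finset.card_filter, Fintype.sum_sum_type, Fintype.sum_sum_type]
  have h1 : (∑ i : Fin (t + 1), if j.1 ∈ vec t (.inl i) then 1 else 0) = j.1 + 1 := by
    have : ∀ i : Fin (t + 1), (if j.1 ∈ vec t (.inl i) then 1 else 0)
        = if i.1 ≤ j.1 then 1 else 0 := by
      intro i
      simp only [vec, mem_Ico, hj, and_true]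
    rw [Finset.sum_congr rfl (fun i _ => this i),
      Fin.sum_univ_eq_sum_range (fun i => if i ≤ j.1 then 1 else 0) (t + 1), ← Finset.card_filter]
    have h2 : (range (t + 1)).filter (fun i => i ≤ j.1) = range (j.1 + 1) := by
      ext i; simp only [mem_filter, mem_range]; omega
    rw [h2, card_range]
  have h3 : (∑ i : Fin (t - 1), if j.1 ∈ vec t (.inr (.inl i)) then 1 else 0)
      = if j.1 = 0 then t - 1 else t - 2 := by
    have : ∀ i : Fin (t - 1), (if j.1 ∈ vec t (.inr (.inl i)) then 1 else 0)
        = if j.1 ≠ i.1 + 1 then 1 else 0 := by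
      intro i
      simp only [vec, mem_erase, mem_range, hj, and_true]
    rw [Finset.sum_congr rfl (fun i _ => this i),
      Fin.sum_univ_eq_sum_range (fun i => if j.1 ≠ i + 1 then 1 else 0) (t - 1),
      ← Finset.card_filter]
    split_ifs with h0
    · rw [Finset.filter_true_of_mem (by intro i _; omega), card_range]
    · have h2 : (range (t - 1)).filter (fun i => j.1 ≠ i + 1) = (range (t - 1)).erase (j.1 - 1) := by
        ext i; simp only [mem_filter, mem_range, mem_erase]; omega
      rw [h2, Finset.card_erase_of_mem (mem_range.2 (by omega)), card_range]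
      omega
  have h4 : (∑ i : Fin 1, if j.1 ∈ vec t (.inr (.inr i)) then 1 else 0)
      = if 1 ≤ j.1 ∧ j.1 < t - 1 then 1 else 0 := by
    rw [Fin.sum_univ_one]
    simp only [vec, mem_Ico]
  rw [h1, h3, h4]
  split_ifs <;> omega

/-- the last column -/
def lastc {t : ℕ} (ht : 3 ≤ t) : Fin t := ⟨t - 1, by omega⟩

theorem nu_eq {t : ℕ} (ht : 3 ≤ t) (j : Fin t) : nu (Nt t) (lastc ht) j = j.1 + t := by
  rw [nu, card_Nt ht]
  have hj := j.2
  by_cases h : j.1 = t - 1
  · rw [if_pos h, if_pos (Fin.ext h)]
    omega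
  · rw [if_neg h, if_neg]
    · rfl
    · intro e
      exact h (congrArg Fin.val e)

theorem tail_irregular {n k : ℕ} (hn : 4 ≤ n) (hk : 2 ≤ k) :
    IsIrregular (⊤ : SimpleGraph (Fin n)) (ext (Nt (n - 1)) (lastc (t := n - 1) (by omega)) hk) := by
  have ht : 3 ≤ n - 1 := by omega
  apply irregular_ext hk (by omega)
  · intro j; rw [nu_eq ht]; omega
  · intro j; rw [nu_eq ht]
    simp only [Fintype.card_sum, Fintype.card_fin]
    have := j.2
    omega
  · intro i j h
    rw [nu_eq ht, nu_eq ht] at h
    exact Fin.ext (by omega)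
  · have key : ∀ y, Fam.tsum (Nt (n - 1)) (lastc ht) n y
        = ∑ j ∈ vec (n - 1) y, (n - 1 + j - 1).choose (n - 1 - 1) := by
      intro y
      rw [Fam.tsum]
      have h1 : ∀ j : Fin (n - 1), (if y ∈ Nt (n - 1) j then
          (nu (Nt (n - 1)) (lastc ht) j - 1).choose (n - 2) else 0)
          = if j.1 ∈ vec (n - 1) y then (n - 1 + j.1 - 1).choose (n - 1 - 1) else 0 := by
        intro j
        rw [nu_eq ht]
        simp only [Nt, mem_filter, mem_univ, true_and]
        rw [show j.1 + (n - 1) - 1 = n - 1 + j.1 - 1 by omega, show n - 2 = n - 1 - 1 by omega]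
      rw [Finset.sum_congr rfl (fun j _ => h1 j), Fin.sum_univ_eq_sum_range
        (fun j => if j ∈ vec (n - 1) y then (n - 1 + j - 1).choose (n - 1 - 1) else 0) (n - 1),
        ← Finset.sum_filter]
      apply Finset.sum_congr _ (fun _ _ => rfl)
      ext j
      rw [mem_filter]
      exact ⟨fun h => h.2, fun h => ⟨vec_sub _ _ h, h⟩⟩
    intro y y' h
    rw [key, key] at h
    apply vec_inj ht
    exact superinc (fun j => (n - 1 + j - 1).choose (n - 1 - 1)) (n - 1)
      (super_choose (n - 1) (by omega)) _ _ (vec_sub _ _) (vec_sub _ _) h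

/-- the tail for `n = 3` -/
def Nt3 : Fin 2 → Finset (Fin 4) := ![{1, 3}, {2, 3}]

theorem tail3_irregular {k : ℕ} (hk : 2 ≤ k) :
    IsIrregular (⊤ : SimpleGraph (Fin 3)) (ext Nt3 1 hk) := by
  apply irregular_ext hk le_rfl
  · decide
  · decide
  · decide
  · decide

end Pool.Agent.Q105.Irr.Tail
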